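import Pool.Agent.U260.GZ.Stm
import Pool.Agent.H221R2.FB_VdcGen

set_option autoImplicit false

/-!
Package LL of project GDZ (helper260): van der Corput's method for the phase `ω log log (1+t/m)`.
-/

namespace Pool.Agent.U643.GZL

open Complex Filter Topology MeasureTheory Set
open Pool.Agent.N879.GD
open Pool.Agent.H469R2.NK (e)

theorem kap_pos {m R : ℕ} (hm : 1 ≤ m) (hR : 1 ≤ R) : 0 < kap m R := by
  have hm' : (0 : ℝ) < m := by exact_mod_cast hm
  have hR' : (0 : ℝ) < R := by exact_mod_cast hR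
  unfold kap
  have h1 : 0 < Real.log (1 + (R : ℝ) / m) := Real.log_pos (by
    have : 0 < (R : ℝ) / m := div_pos hR' hm'
    linarith)
  positivity

/-- Package LL. -/
theorem t_LL (h : Pool.Agent.U260.GZ.S_LD) : S_LL := by
  obtain ⟨c0, C0, hc0, hLD⟩ := h 9
  obtain ⟨η, hη0, hη1, C, hC, hv⟩ := Pool.Agent.H221R2.FB.vdc_gen 5 c0 C0 hc0
  refine ⟨η, hη0, hη1, 2 * Real.pi * C, by positivity, ?_⟩
  intro m R L u ω hm hR hu hL huL h1 h2
  obtain ⟨φ, hφ0, hφd, hφb⟩ := hLD m R hm hR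
  have hk := kap_pos hm hR
  have hpi := Real.pi_gt_three
  have hR' : (1 : ℝ) ≤ R := by exact_mod_cast hR
  have hξ : |ω * kap m R / (2 * Real.pi)| = kap m R * |ω| / (2 * Real.pi) := by
    rw [abs_div, abs_mul, abs_of_pos hk, abs_of_pos (by positivity : (0 : ℝ) < 2 * Real.pi)]
    ring
  have hξ1 : 1 ≤ |ω * kap m R / (2 * Real.pi)| := by
    rw [hξ, le_div_iff₀ (by positivity)]
    linarith
  have hξ2 : |ω * kap m R / (2 * Real.pi)| ≤ (R : ℝ) ^ 5 := by
    rw [hξ, div_le_iff₀ (by positivity)]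
    have : 0 < (R : ℝ) ^ 5 := by positivity
    nlinarith
  have hmain := hv R L u (ω * kap m R / (2 * Real.pi)) φ hR hu hL huL
    (fun j hj t ht => hφd j hj t ht) (fun j hj1 hj2 t ht => hφb j hj1 hj2 t ht) hξ1 hξ2
  have hsum : ∑ n ∈ Finset.range L,
      cexp (I * ((ω * Real.log (Real.log (1 + (u + n) / m)) : ℝ) : ℂ)) =
      ∑ n ∈ Finset.range L, e (ω * kap m R / (2 * Real.pi) * φ 0 (u + n)) := by
    refine Finset.sum_congr rfl fun n hn => ?_
    have hn' : (n : ℝ) ≤ L := by exact_mod_cast (Finset.mem_range.1 hn).le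
    have hn0 : (0 : ℝ) ≤ n := Nat.cast_nonneg n
    rw [hφ0 (u + n) ⟨by linarith, by linarith⟩]
    unfold e
    rw [mul_comm I]
    congr 3
    field_simp
  rw [hsum]
  refine hmain.trans ?_
  rw [hξ]
  have hA : 0 ≤ (R : ℝ) ^ (1 - η) := by positivity
  have hkw : 0 < kap m R * |ω| := by linarith
  have hB : (R : ℝ) / (kap m R * |ω| / (2 * Real.pi)) = 2 * Real.pi * (R / (kap m R * |ω|)) := by
    field_simp
  rw [hB]
  have h3 : C * (R : ℝ) ^ (1 - η) ≤ 2 * Real.pi * C * (R : ℝ) ^ (1 - η) := by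
    have : 0 ≤ C * (R : ℝ) ^ (1 - η) := by positivity
    nlinarith
  calc C * ((R : ℝ) ^ (1 - η) + 2 * Real.pi * (R / (kap m R * |ω|)))
      = C * (R : ℝ) ^ (1 - η) + 2 * Real.pi * C * (R / (kap m R * |ω|)) := by ring
    _ ≤ 2 * Real.pi * C * (R : ℝ) ^ (1 - η) + 2 * Real.pi * C * (R / (kap m R * |ω|)) := by
        linarith
    _ = _ := by ring

end Pool.Agent.U643.GZL
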